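import Mathlib

/-!
# Fisher's inequality for the self-avoiding walk

For the self-avoiding walk on `ℤ^d`, any `d ≥ 1`: if the exponents `γ` (number of walks), `ν`
(mean-square displacement) and `η` (critical two-point function) exist, then
`1 ≤ γ ≤ ν (2 - η)`; in particular `ν > 0` and `η < 2`.  This is one half of Fisher's scaling relation
`γ = ν (2 - η)`.

Proof.  By Chebyshev's inequality at least half of the `m`-step walks, `n ≤ m < 2 n`, end in a box of
side `n^(ν + ε)`; hence `n^γ` is at most of the order of the sum of the critical two-point function over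
this box, which is at most `n^((ν + ε) (2 - η + ε))`.
-/

set_option autoImplicit false

namespace Pool.Agent.Results.MP_5e6e69_pr.FisherInequality

open Filter Topology

/-- `ω` is an `n`-step self-avoiding walk on `ℤ^d` started at the origin. -/
def IsSAW (d n : ℕ) (ω : Fin (n + 1) → Fin d → ℤ) : Prop :=
  ω 0 = 0 ∧ (∀ i : Fin n, ∑ k, |ω i.succ k - ω i.castSucc k| = 1) ∧ Function.Injective ω

/-- `C_n`: the number of `n`-step self-avoiding walks -/
noncomputable def C (d n : ℕ) : ℕ := Nat.card {ω : Fin (n + 1) → Fin d → ℤ // IsSAW d n ω}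

/-- `C_n(x)`: the number of those which end at `x` -/
noncomputable def Cx (d n : ℕ) (x : Fin d → ℤ) : ℕ :=
  Nat.card {ω : Fin (n + 1) → Fin d → ℤ // IsSAW d n ω ∧ ω (Fin.last n) = x}

/-- the square of the Euclidean norm -/
def nsq {d : ℕ} (x : Fin d → ℤ) : ℝ := ∑ k, (x k : ℝ) ^ 2

/-- the Euclidean norm -/
noncomputable def len {d : ℕ} (x : Fin d → ℤ) : ℝ := Real.sqrt (nsq x)

/-- the mean-square displacement `⟨|ω(n)|²⟩` -/
noncomputable def msd (d n : ℕ) : ℝ :=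
  (∑ᶠ ω ∈ {ω : Fin (n + 1) → Fin d → ℤ | IsSAW d n ω}, nsq (ω (Fin.last n))) / (C d n : ℝ)

/-- the two-point function `G(x) = ∑_n μ^(-n) C_n(x)` -/
noncomputable def G (d : ℕ) (μ : ℝ) (x : Fin d → ℤ) : ℝ := ∑' n : ℕ, (Cx d n x : ℝ) / μ ^ n

/-! ### finite sets of walks -/

theorem coord_le {d n : ℕ} {ω : Fin (n + 1) → Fin d → ℤ} (h : IsSAW d n ω) (k : Fin d) :
    ∀ (i : ℕ) (hi : i < n + 1), |ω ⟨i, hi⟩ k| ≤ i := by
  intro i
  induction i with
  | zero =>
    intro hi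
    have h0 : ω ⟨0, hi⟩ = 0 := h.1
    rw [h0]
    simp
  | succ i ih =>
    intro hi
    have h1 := ih (by omega)
    have h2 : ∑ k, |ω ⟨i + 1, hi⟩ k - ω ⟨i, by omega⟩ k| = 1 := h.2.1 ⟨i, by omega⟩
    have h3 : |ω ⟨i + 1, hi⟩ k - ω ⟨i, by omega⟩ k| ≤
        ∑ k, |ω ⟨i + 1, hi⟩ k - ω ⟨i, by omega⟩ k| :=
      Finset.single_le_sum (f := fun k => |ω ⟨i + 1, hi⟩ k - ω ⟨i, by omega⟩ k|)
        (fun _ _ => abs_nonneg _) (Finset.mem_univ k)
    have h4 : |ω ⟨i + 1, hi⟩ k| ≤ |ω ⟨i + 1, hi⟩ k - ω ⟨i, by omega⟩ k| + |ω ⟨i, by omega⟩ k| := by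
      have := abs_add_le (ω ⟨i + 1, hi⟩ k - ω ⟨i, by omega⟩ k) (ω ⟨i, by omega⟩ k)
      simpa using this
    push_cast
    linarith

theorem fin_saw (d n : ℕ) : {ω : Fin (n + 1) → Fin d → ℤ | IsSAW d n ω}.Finite := by
  apply Set.Finite.subset (Set.Finite.pi (fun _ : Fin (n + 1) => Set.Finite.pi
    (fun _ : Fin d => Set.finite_Icc (-(n : ℤ)) n)))
  intro ω h
  rw [Set.mem_pi]
  intro i _
  rw [Set.mem_pi]
  intro k _
  have h1 := coord_le h k i.1 i.2
  have h2 : (i.1 : ℤ) ≤ n := by exact_mod_cast Nat.lt_succ_iff.1 i.2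
  rw [Set.mem_Icc]
  have h3 := abs_le.1 (h1.trans h2)
  exact h3

/-- the walks as a finset -/
noncomputable def W (d n : ℕ) : Finset (Fin (n + 1) → Fin d → ℤ) := (fin_saw d n).toFinset

theorem mem_W {d n : ℕ} {ω : Fin (n + 1) → Fin d → ℤ} : ω ∈ W d n ↔ IsSAW d n ω := by
  unfold W
  rw [Set.Finite.mem_toFinset]
  rfl

theorem C_eq (d n : ℕ) : C d n = (W d n).card := by
  unfold C W
  rw [← Set.ncard_eq_toFinset_card _ (fin_saw d n)]
  rfl

theorem Cx_eq (d n : ℕ) (x : Fin d → ℤ) :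
    Cx d n x = ((W d n).filter (fun ω => ω (Fin.last n) = x)).card := by
  classical
  unfold Cx
  have h : {ω : Fin (n + 1) → Fin d → ℤ | IsSAW d n ω ∧ ω (Fin.last n) = x}.ncard =
      ((W d n).filter (fun ω => ω (Fin.last n) = x)).card := by
    rw [← Set.ncard_coe_finset]
    congr 1
    ext ω
    simp [mem_W]
  rw [← h]
  rfl

theorem sum_Cx (d n : ℕ) (B : Finset (Fin d → ℤ)) :
    ∑ x ∈ B, Cx d n x = ((W d n).filter (fun ω => ω (Fin.last n) ∈ B)).card := by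
  classical
  rw [Finset.card_eq_sum_card_fiberwise (f := fun ω => ω (Fin.last n)) (t := B)]
  · apply Finset.sum_congr rfl
    intro x hx
    rw [Cx_eq]
    congr 1
    ext ω
    rw [Finset.mem_filter, Finset.mem_filter, Finset.mem_filter]
    constructor
    · rintro ⟨h1, h2⟩
      exact ⟨⟨h1, by rw [h2]; exact hx⟩, h2⟩
    · rintro ⟨⟨h1, _⟩, h2⟩
      exact ⟨h1, h2⟩
  · intro ω hω
    rw [Finset.mem_coe, Finset.mem_filter] at hω
    exact hω.2

/-- the box of side `2 M + 1` -/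
noncomputable def box (d M : ℕ) : Finset (Fin d → ℤ) := Fintype.piFinset (fun _ => Finset.Icc (-(M : ℤ)) M)

theorem mem_box {d M : ℕ} {x : Fin d → ℤ} : x ∈ box d M ↔ ∀ k, |x k| ≤ M := by
  unfold box
  rw [Fintype.mem_piFinset]
  apply forall_congr'
  intro k
  rw [Finset.mem_Icc, abs_le]

theorem card_box (d M : ℕ) : (box d M).card = (2 * M + 1) ^ d := by
  unfold box
  rw [Fintype.card_piFinset_const, Int.card_Icc]
  congr 1
  omega

theorem nsq_nonneg {d : ℕ} (x : Fin d → ℤ) : 0 ≤ nsq x :=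
  Finset.sum_nonneg (fun _ _ => sq_nonneg _)

theorem lt_nsq {d M : ℕ} {x : Fin d → ℤ} (h : x ∉ box d M) : (M : ℝ) ^ 2 ≤ nsq x := by
  rw [mem_box] at h
  push Not at h
  obtain ⟨k, hk⟩ := h
  have h1 : (x k : ℝ) ^ 2 ≤ nsq x :=
    Finset.single_le_sum (f := fun k => (x k : ℝ) ^ 2) (fun _ _ => sq_nonneg _) (Finset.mem_univ k)
  have h2 : (M : ℝ) ≤ |(x k : ℝ)| := by exact_mod_cast hk.le
  have h3 : (M : ℝ) ^ 2 ≤ |(x k : ℝ)| ^ 2 := pow_le_pow_left₀ (Nat.cast_nonneg M) h2 2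
  rw [sq_abs] at h3
  linarith

theorem le_len {d M : ℕ} {x : Fin d → ℤ} (h : x ∉ box d M) : (M : ℝ) ≤ len x := by
  unfold len
  exact Real.le_sqrt_of_sq_le (lt_nsq h)

theorem len_le {d M : ℕ} {x : Fin d → ℤ} (h : x ∈ box d M) : len x ≤ d * M := by
  rw [mem_box] at h
  unfold len
  rw [Real.sqrt_le_left (by positivity)]
  have h1 : nsq x ≤ ∑ _k : Fin d, (M : ℝ) ^ 2 := by
    apply Finset.sum_le_sum
    intro k _
    have h2 : |(x k : ℝ)| ≤ M := by exact_mod_cast h k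
    have h3 : |(x k : ℝ)| ^ 2 ≤ (M : ℝ) ^ 2 := pow_le_pow_left₀ (abs_nonneg _) h2 2
    rwa [sq_abs] at h3
  rw [Finset.sum_const, Finset.card_univ, Fintype.card_fin, nsmul_eq_mul] at h1
  refine h1.trans ?_
  rw [mul_pow]
  apply mul_le_mul_of_nonneg_right _ (by positivity)
  rcases Nat.eq_zero_or_pos d with h0 | h0
  · rw [h0]; norm_num
  · have : (1 : ℝ) ≤ d := by exact_mod_cast h0
    nlinarith

/-- Chebyshev -/
theorem cheb (d n M : ℕ) (hC : 0 < C d n) :
    (C d n : ℝ) * ((M : ℝ) ^ 2 - msd d n) ≤ (M : ℝ) ^ 2 * ∑ x ∈ box d M, (Cx d n x : ℝ) := by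
  classical
  have hC' : (0 : ℝ) < C d n := by exact_mod_cast hC
  have e1 : (C d n : ℝ) * msd d n = ∑ ω ∈ W d n, nsq (ω (Fin.last n)) := by
    unfold msd
    rw [finsum_mem_eq_finite_toFinset_sum _ (fin_saw d n), mul_div_cancel₀ _ hC'.ne']
    rfl
  have e2 : ∑ x ∈ box d M, (Cx d n x : ℝ) =
      (((W d n).filter (fun ω => ω (Fin.last n) ∈ box d M)).card : ℝ) := by
    exact_mod_cast sum_Cx d n (box d M)
  have e3 : (C d n : ℝ) = (((W d n).filter (fun ω => ω (Fin.last n) ∈ box d M)).card : ℝ) +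
      (((W d n).filter (fun ω => ¬ ω (Fin.last n) ∈ box d M)).card : ℝ) := by
    rw [C_eq]
    exact_mod_cast (Finset.card_filter_add_card_filter_not (s := W d n)
      (fun ω => ω (Fin.last n) ∈ box d M)).symm
  have h1 : (((W d n).filter (fun ω => ¬ ω (Fin.last n) ∈ box d M)).card : ℝ) * (M : ℝ) ^ 2 ≤
      ∑ ω ∈ W d n, nsq (ω (Fin.last n)) := by
    rw [← nsmul_eq_mul, ← Finset.sum_const]
    refine (Finset.sum_le_sum ?_).trans (Finset.sum_le_sum_of_subset_of_nonneg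
      (Finset.filter_subset _ _) (fun _ _ _ => nsq_nonneg _))
    intro ω hω
    rw [Finset.mem_filter] at hω
    exact lt_nsq hω.2
  rw [mul_sub, e1, e2]
  have h2 : (C d n : ℝ) * (M : ℝ) ^ 2 =
      (M : ℝ) ^ 2 * (((W d n).filter (fun ω => ω (Fin.last n) ∈ box d M)).card : ℝ) +
      (((W d n).filter (fun ω => ¬ ω (Fin.last n) ∈ box d M)).card : ℝ) * (M : ℝ) ^ 2 := by
    rw [e3]; ring
  linarith

/-! ### submultiplicativity -/

theorem submul (d m n : ℕ) : C d (m + n) ≤ C d m * C d n := by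
  unfold C
  rw [← Nat.card_prod]
  have f1 : Finite {ω : Fin (m + 1) → Fin d → ℤ // IsSAW d m ω} := (fin_saw d m).to_subtype
  have f2 : Finite {ω : Fin (n + 1) → Fin d → ℤ // IsSAW d n ω} := (fin_saw d n).to_subtype
  apply Nat.card_le_card_of_injective
    (fun ω : {ω : Fin (m + n + 1) → Fin d → ℤ // IsSAW d (m + n) ω} =>
      ((⟨fun i => ω.1 ⟨i.1, by omega⟩, by
          obtain ⟨ω, h1, h2, h3⟩ := ω
          refine ⟨h1, fun i => h2 ⟨i.1, by omega⟩, fun i j hij => ?_⟩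
          have := congrArg Fin.val (h3 hij)
          exact Fin.ext this⟩ : {ω : Fin (m + 1) → Fin d → ℤ // IsSAW d m ω}),
        (⟨fun j => ω.1 ⟨m + j.1, by omega⟩ - ω.1 ⟨m, by omega⟩, by
          obtain ⟨ω, h1, h2, h3⟩ := ω
          refine ⟨sub_self _, fun i => ?_, fun i j hij => ?_⟩
          · have h4 := h2 ⟨m + i.1, by omega⟩
            simp only [Pi.sub_apply, sub_sub_sub_cancel_right]
            exact h4
          · have h4 := congrArg Fin.val (h3 (sub_left_injective hij))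
            simp only at h4
            exact Fin.ext (by omega)⟩ : {ω : Fin (n + 1) → Fin d → ℤ // IsSAW d n ω})))
  intro ω ω' h
  rw [Prod.mk.injEq, Subtype.mk.injEq, Subtype.mk.injEq] at h
  obtain ⟨h1, h2⟩ := h
  apply Subtype.ext
  funext i
  rcases Nat.lt_or_ge i.1 (m + 1) with h3 | h3
  · exact congrFun h1 ⟨i.1, h3⟩
  · have h4 := congrFun h2 ⟨i.1 - m, by omega⟩
    have h5 := congrFun h1 ⟨m, by omega⟩
    simp only at h4 h5
    rw [h5, sub_left_inj] at h4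
    have h6 : (⟨m + (i.1 - m), by omega⟩ : Fin (m + n + 1)) = i := Fin.ext (by simp only; omega)
    rw [h6] at h4
    exact h4

theorem pow_le_C {d : ℕ} {μ : ℝ} (hμ : 0 < μ)
    (hlim : Tendsto (fun n : ℕ => (C d n : ℝ) ^ (1 / (n : ℝ))) atTop (𝓝 μ)) (n : ℕ) (hn : 1 ≤ n) :
    μ ^ n ≤ C d n := by
  have hn0 : (0 : ℝ) < n := by exact_mod_cast hn
  have h1 : ∀ k : ℕ, C d ((k + 1) * n) ≤ C d n ^ (k + 1) := by
    intro k
    induction k with
    | zero => simp
    | succ k ih =>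
      have e : (k + 1 + 1) * n = (k + 1) * n + n := by ring
      rw [e, pow_succ]
      exact (submul d _ _).trans (Nat.mul_le_mul_right _ ih)
  have h2 : Tendsto (fun k : ℕ => (k + 1) * n) atTop atTop := by
    apply tendsto_atTop_mono (f := fun k => k) _ tendsto_id
    intro k
    nlinarith
  have h3 := hlim.comp h2
  have h4 : μ ≤ (C d n : ℝ) ^ (1 / (n : ℝ)) := by
    apply le_of_tendsto' h3
    intro k
    simp only [Function.comp]
    have hk : (0 : ℝ) < (k : ℝ) + 1 := by positivity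
    have h5 : ((C d ((k + 1) * n) : ℕ) : ℝ) ≤ (C d n : ℝ) ^ (k + 1) := by exact_mod_cast h1 k
    have h6 := Real.rpow_le_rpow (Nat.cast_nonneg _) h5
      (show (0 : ℝ) ≤ 1 / (((k + 1) * n : ℕ) : ℝ) by positivity)
    refine h6.trans (le_of_eq ?_)
    rw [← Real.rpow_natCast, ← Real.rpow_mul (Nat.cast_nonneg _)]
    congr 1
    push_cast
    field_simp
  have h5 := Real.rpow_le_rpow hμ.le h4 hn0.le
  rw [← Real.rpow_mul (Nat.cast_nonneg _), one_div, inv_mul_cancel₀ hn0.ne', Real.rpow_one,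
    Real.rpow_natCast] at h5
  exact h5

/-! ### the two-point function over boxes -/

theorem box_mono {d M N : ℕ} (h : M ≤ N) : box d M ⊆ box d N := by
  intro x hx
  rw [mem_box] at hx ⊢
  intro k
  exact (hx k).trans (by exact_mod_cast h)

theorem exists_box {d : ℕ} (F : Set (Fin d → ℤ)) (hF : F.Finite) :
    ∃ J0 : ℕ, ∀ x ∈ F, x ∈ box d (2 ^ J0) := by
  obtain ⟨M, hM⟩ : ∃ M : ℕ, M = hF.toFinset.sup (fun x => Finset.univ.sup (fun k => (x k).natAbs)) :=
    ⟨_, rfl⟩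
  refine ⟨M, fun x hx => box_mono (Nat.lt_two_pow_self).le ?_⟩
  rw [mem_box]
  intro k
  have h1 : (x k).natAbs ≤ Finset.univ.sup (fun k => (x k).natAbs) :=
    Finset.le_sup (f := fun k => (x k).natAbs) (Finset.mem_univ k)
  have h2 : Finset.univ.sup (fun k => (x k).natAbs) ≤ M := by
    rw [hM]
    exact Finset.le_sup (f := fun x : Fin d → ℤ => Finset.univ.sup (fun k => (x k).natAbs))
      (hF.mem_toFinset.2 hx)
  have h3 : (x k).natAbs ≤ M := h1.trans h2
  rw [Int.abs_eq_natAbs]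
  exact_mod_cast h3

theorem sum_box {d : ℕ} (hd : 1 ≤ d) {μ η ε κ : ℝ} (hμ : 0 < μ)
    (hη : Tendsto (fun x : Fin d → ℤ => Real.log (G d μ x) / Real.log (len x)) cofinite
      (𝓝 (-((d : ℝ) - 2 + η))))
    (hε : 0 < ε) (hκ : 0 < κ) (hκu : 2 - η + ε ≤ κ) :
    ∃ (K : ℝ) (J0 : ℕ), 0 < K ∧ ∀ J : ℕ, J0 ≤ J →
      ∑ x ∈ box d (2 ^ J), G d μ x ≤ K * ((2 : ℝ) ^ κ) ^ J := by
  classical
  have hG : ∀ x : Fin d → ℤ, 0 ≤ G d μ x := fun x => tsum_nonneg (fun n => by positivity)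
  obtain ⟨t, ht⟩ : ∃ t, t = 2 - η - d + ε := ⟨_, rfl⟩
  have h1 : ∀ᶠ x : Fin d → ℤ in cofinite, Real.log (G d μ x) / Real.log (len x) < t :=
    hη.eventually (gt_mem_nhds (by rw [ht]; linarith))
  have h2 : {x : Fin d → ℤ | ¬ Real.log (G d μ x) / Real.log (len x) < t}.Finite := h1
  obtain ⟨J1, hJ1⟩ := exists_box _ h2
  obtain ⟨J0, hJ0⟩ : ∃ J0, J0 = J1 + 1 := ⟨_, rfl⟩
  have hd0 : (0 : ℝ) < d := by exact_mod_cast hd
  have hd1 : (1 : ℝ) ≤ d := by exact_mod_cast hd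
  obtain ⟨c1, hc1⟩ : ∃ c1 : ℝ, c1 = (2 * d) ^ |t| := ⟨_, rfl⟩
  have hc11 : 1 ≤ c1 := by
    rw [hc1]
    exact Real.one_le_rpow (by linarith) (abs_nonneg t)
  obtain ⟨b, hb⟩ : ∃ b : ℝ, b = (2 : ℝ) ^ κ := ⟨_, rfl⟩
  have hb1 : 1 < b := by rw [hb]; exact Real.one_lt_rpow (by norm_num) hκ
  have hb0 : 0 < b := by linarith
  obtain ⟨c2, hc2⟩ : ∃ c2 : ℝ, c2 = 8 ^ d * c1 := ⟨_, rfl⟩
  have hc20 : 0 < c2 := by rw [hc2]; positivity
  -- one shell
  have shell : ∀ J : ℕ, J0 ≤ J → ∑ x ∈ box d (2 ^ (J + 1)), G d μ x ≤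
      ∑ x ∈ box d (2 ^ J), G d μ x + c2 * b ^ J := by
    intro J hJ
    have hsub : box d (2 ^ J) ⊆ box d (2 ^ (J + 1)) :=
      box_mono (Nat.pow_le_pow_right (by norm_num) (by omega))
    rw [← Finset.sum_sdiff hsub]
    have hP : (0 : ℝ) < 2 ^ J := by positivity
    have hP1 : (1 : ℝ) ≤ 2 ^ J := one_le_pow₀ (by norm_num)
    have hx : ∀ x ∈ box d (2 ^ (J + 1)) \ box d (2 ^ J), G d μ x ≤ c1 * ((2 : ℝ) ^ J) ^ t := by
      intro x hx
      rw [Finset.mem_sdiff] at hx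
      obtain ⟨g1, g2⟩ := hx
      have l1 := le_len g2
      have l2 := len_le g1
      push_cast at l1 l2
      have l0 : 0 < len x := lt_of_lt_of_le hP l1
      have l3 : Real.log (G d μ x) / Real.log (len x) < t := by
        by_contra hcon
        exact g2 (box_mono (Nat.pow_le_pow_right (by norm_num) (by omega)) (hJ1 x hcon))
      have l4 : 0 < Real.log (len x) := by
        apply Real.log_pos
        refine lt_of_lt_of_le ?_ l1
        exact one_lt_pow₀ (by norm_num) (by omega)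
      rw [div_lt_iff₀ l4] at l3
      have l5 : G d μ x ≤ len x ^ t := by
        rcases (hG x).eq_or_lt with h0 | h0
        · rw [← h0]; positivity
        · rw [Real.rpow_def_of_pos l0, ← Real.log_le_iff_le_exp h0]
          linarith
      refine l5.trans ?_
      rcases le_total 0 t with h0 | h0
      · refine (Real.rpow_le_rpow l0.le l2 h0).trans (le_of_eq ?_)
        have e : (d : ℝ) * 2 ^ (J + 1) = (2 * d) * 2 ^ J := by ring
        rw [e, Real.mul_rpow (by positivity) hP.le, hc1, abs_of_nonneg h0]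
      · refine (Real.rpow_le_rpow_of_nonpos hP l1 h0).trans ?_
        have : 0 < ((2 : ℝ) ^ J) ^ t := by positivity
        exact le_mul_of_one_le_left this.le hc11
    have hsum := Finset.sum_le_sum hx
    rw [Finset.sum_const, nsmul_eq_mul] at hsum
    have hcard : (((box d (2 ^ (J + 1)) \ box d (2 ^ J)).card : ℕ) : ℝ) ≤ (8 * 2 ^ J) ^ d := by
      have h3 : (box d (2 ^ (J + 1)) \ box d (2 ^ J)).card ≤ (8 * 2 ^ J) ^ d := by
        refine (Finset.card_le_card Finset.sdiff_subset).trans ?_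
        rw [card_box]
        apply Nat.pow_le_pow_left
        have : 1 ≤ 2 ^ J := Nat.one_le_two_pow
        rw [pow_succ]
        omega
      exact_mod_cast h3
    have hpos : 0 < c1 * ((2 : ℝ) ^ J) ^ t := by positivity
    have h4 := hsum.trans (mul_le_mul_of_nonneg_right hcard hpos.le)
    have h5 : (8 * (2 : ℝ) ^ J) ^ d * (c1 * ((2 : ℝ) ^ J) ^ t) = c2 * ((2 : ℝ) ^ J) ^ (d + t) := by
      rw [hc2, mul_pow, Real.rpow_add hP, Real.rpow_natCast]
      ring
    have h6 : ((2 : ℝ) ^ J) ^ (d + t) ≤ b ^ J := by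
      have e : b ^ J = ((2 : ℝ) ^ J) ^ κ := by
        rw [hb, ← Real.rpow_natCast, ← Real.rpow_mul (by norm_num), ← Real.rpow_natCast,
          ← Real.rpow_mul (by norm_num), mul_comm]
      rw [e]
      exact Real.rpow_le_rpow_of_exponent_le hP1 (by rw [ht]; linarith)
    have h7 := mul_le_mul_of_nonneg_left h6 hc20.le
    rw [h5] at h4
    linarith
  -- induction
  obtain ⟨S, hS⟩ : ∃ S, S = ∑ x ∈ box d (2 ^ J0), G d μ x := ⟨_, rfl⟩
  have hS0 : 0 ≤ S := by rw [hS]; exact Finset.sum_nonneg (fun x _ => hG x)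
  obtain ⟨K, hK⟩ : ∃ K, K = S + c2 / (b - 1) := ⟨_, rfl⟩
  have hbb : 0 < b - 1 := by linarith
  have hK0 : 0 < K := by rw [hK]; positivity
  have hKc : c2 ≤ K * (b - 1) := by
    rw [hK, add_mul, div_mul_cancel₀ _ hbb.ne']
    have : 0 ≤ S * (b - 1) := by positivity
    linarith
  refine ⟨K, J0, hK0, fun J hJ => ?_⟩
  rw [← hb]
  induction J, hJ using Nat.le_induction with
  | base =>
    rw [← hS]
    have h3 : 1 ≤ b ^ J0 := one_le_pow₀ hb1.le
    have h4 : S ≤ K := by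
      rw [hK]
      have : 0 < c2 / (b - 1) := by positivity
      linarith
    have h5 := mul_le_mul_of_nonneg_left h3 hK0.le
    linarith
  | succ J hJ ih =>
    have h3 := shell J hJ
    have h4 := mul_le_mul_of_nonneg_right hKc (pow_pos hb0 J).le
    have e : K * b ^ (J + 1) = K * b ^ J + K * (b - 1) * b ^ J := by rw [pow_succ]; ring
    rw [e]
    linarith

/-! ### growth -/

theorem ev_pow {α β : ℝ} (c : ℝ) (h : α < β) :
    ∀ᶠ n : ℕ in atTop, c * (n : ℝ) ^ α ≤ (n : ℝ) ^ β := by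
  have h1 : Tendsto (fun n : ℕ => (n : ℝ) ^ (β - α)) atTop atTop :=
    (tendsto_rpow_atTop (by linarith)).comp tendsto_natCast_atTop_atTop
  filter_upwards [h1.eventually_ge_atTop c, eventually_ge_atTop 1] with n hn hn1
  have hn0 : (0 : ℝ) < n := by exact_mod_cast hn1
  calc c * (n : ℝ) ^ α ≤ (n : ℝ) ^ (β - α) * (n : ℝ) ^ α :=
        mul_le_mul_of_nonneg_right hn (by positivity)
    _ = (n : ℝ) ^ β := by
        rw [← Real.rpow_add hn0]; congr 1; ring

theorem core {d : ℕ} (hd : 1 ≤ d) {μ γ ν η : ℝ} (hμ : 0 < μ)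
    (hlim : Tendsto (fun n : ℕ => (C d n : ℝ) ^ (1 / (n : ℝ))) atTop (𝓝 μ))
    (hγ : Tendsto (fun n : ℕ => Real.log ((C d n : ℝ) / μ ^ n) / Real.log n) atTop (𝓝 (γ - 1)))
    (hν : Tendsto (fun n : ℕ => Real.log (msd d n) / Real.log n) atTop (𝓝 (2 * ν)))
    (hsum : ∀ x : Fin d → ℤ, Summable (fun n : ℕ => (Cx d n x : ℝ) / μ ^ n))
    (hη : Tendsto (fun x : Fin d → ℤ => Real.log (G d μ x) / Real.log (len x)) cofinite
      (𝓝 (-((d : ℝ) - 2 + η)))) {ε : ℝ} (hε : 0 < ε) :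
    γ - ε ≤ (max (2 * ν) 0 + ε) * (max (2 - η) 0 + 2 * ε) / 2 := by
  obtain ⟨q, hq⟩ : ∃ q, q = max (2 * ν) 0 + ε := ⟨_, rfl⟩
  obtain ⟨κ, hκ⟩ : ∃ κ, κ = max (2 - η) 0 + 2 * ε := ⟨_, rfl⟩
  have hq0 : 0 < q := by
    rw [hq]
    have := le_max_right (2 * ν) 0
    linarith
  have hκ0 : 0 < κ := by
    rw [hκ]
    have := le_max_right (2 - η) 0
    linarith
  have hκu : 2 - η + ε ≤ κ := by
    rw [hκ]
    have := le_max_left (2 - η) 0
    linarith
  obtain ⟨p, hp⟩ : ∃ p, p = max (γ - 1 - ε) 0 := ⟨_, rfl⟩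
  have hp0 : 0 ≤ p := by rw [hp]; exact le_max_right _ _
  rw [← hq, ← hκ]
  obtain ⟨K, J0, hK, hbox⟩ := sum_box hd hμ hη hε hκ0 hκu
  -- the walks
  have e1 : ∀ᶠ n : ℕ in atTop, (n : ℝ) ^ p ≤ (C d n : ℝ) / μ ^ n := by
    filter_upwards [hγ.eventually (lt_mem_nhds (show γ - 1 - ε < γ - 1 by linarith)),
      eventually_ge_atTop 2] with n h1 hn
    have hn0 : (0 : ℝ) < n := by exact_mod_cast (by omega : 0 < n)
    have hlog : 0 < Real.log n := Real.log_pos (by exact_mod_cast (by omega : 1 < n))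
    have h2 := pow_le_C hμ hlim n (by omega)
    have h3 : 1 ≤ (C d n : ℝ) / μ ^ n := by rw [le_div_iff₀ (pow_pos hμ n), one_mul]; exact h2
    rw [hp]
    rcases max_choice (γ - 1 - ε) 0 with h4 | h4
    · rw [h4, Real.rpow_def_of_pos hn0, ← Real.le_log_iff_exp_le (by linarith)]
      rw [lt_div_iff₀ hlog] at h1
      linarith
    · rw [h4, Real.rpow_zero]
      exact h3
  have e2 : ∀ᶠ n : ℕ in atTop, msd d n ≤ (n : ℝ) ^ q := by
    filter_upwards [hν.eventually (gt_mem_nhds (show 2 * ν < q by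
        rw [hq]
        have := le_max_left (2 * ν) 0
        linarith)), eventually_ge_atTop 2] with n h1 hn
    have hn0 : (0 : ℝ) < n := by exact_mod_cast (by omega : 0 < n)
    have hlog : 0 < Real.log n := Real.log_pos (by exact_mod_cast (by omega : 1 < n))
    rcases le_or_gt (msd d n) 0 with h2 | h2
    · exact h2.trans (by positivity)
    · rw [Real.rpow_def_of_pos hn0, ← Real.log_le_iff_le_exp h2]
      rw [div_lt_iff₀ hlog] at h1
      linarith
  obtain ⟨N1, hN1⟩ := eventually_atTop.1 (e1.and e2)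
  -- the main inequality
  obtain ⟨c, hc⟩ : ∃ c : ℝ, c = 2 * K * (2 * (2 * 2 ^ q) ^ (1 / 2 : ℝ)) ^ κ := ⟨_, rfl⟩
  have main : ∀ᶠ n : ℕ in atTop, (n : ℝ) ^ (1 + p) ≤ c * (n : ℝ) ^ (q * κ / 2) := by
    filter_upwards [ev_pow ((2 : ℝ) ^ J0) (show (0 : ℝ) < q / 2 by positivity),
      eventually_ge_atTop (max N1 1)] with n h1 hn
    have hnN : N1 ≤ n := (le_max_left _ _).trans hn
    have hn1 : 1 ≤ n := (le_max_right _ _).trans hn
    have hn0 : (0 : ℝ) < n := by exact_mod_cast hn1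
    have hn1' : (1 : ℝ) ≤ n := by exact_mod_cast hn1
    rw [Real.rpow_zero, mul_one] at h1
    obtain ⟨X, hX⟩ : ∃ X : ℝ, X = (2 * (2 * (n : ℝ)) ^ q) ^ (1 / 2 : ℝ) := ⟨_, rfl⟩
    have hXpos : 0 < X := by rw [hX]; positivity
    have hX2 : X ^ 2 = 2 * (2 * (n : ℝ)) ^ q := by
      rw [hX, ← Real.rpow_natCast, ← Real.rpow_mul (by positivity)]
      norm_num
    have hXn : X = (2 * 2 ^ q) ^ (1 / 2 : ℝ) * (n : ℝ) ^ (q / 2) := by
      rw [hX, Real.mul_rpow (by norm_num) hn0.le, ← mul_assoc,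
        Real.mul_rpow (by positivity) (by positivity), ← Real.rpow_mul hn0.le]
      congr 2
      ring
    have hXJ : (2 : ℝ) ^ J0 ≤ X := by
      refine h1.trans ?_
      rw [hXn]
      apply le_mul_of_one_le_left (by positivity)
      apply Real.one_le_rpow _ (by norm_num)
      have : (1 : ℝ) ≤ 2 ^ q := Real.one_le_rpow (by norm_num) hq0.le
      linarith
    have hX1 : 1 ≤ X := (one_le_pow₀ (by norm_num : (1 : ℝ) ≤ 2)).trans hXJ
    obtain ⟨J, hJ1, hJ2⟩ := exists_nat_pow_near hX1 (show (1 : ℝ) < 2 by norm_num)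
    have hJJ : J0 ≤ J + 1 := by
      have : (2 : ℝ) ^ J0 < 2 ^ (J + 1) := lt_of_le_of_lt hXJ hJ2
      exact ((pow_lt_pow_iff_right₀ (by norm_num)).1 this).le
    obtain ⟨M, hM⟩ : ∃ M : ℕ, M = 2 ^ (J + 1) := ⟨_, rfl⟩
    have hM' : (M : ℝ) = 2 ^ (J + 1) := by rw [hM]; push_cast; ring
    have hMpos : (0 : ℝ) < M := by rw [hM']; positivity
    -- every length
    have one : ∀ m ∈ Finset.Ico n (2 * n), (n : ℝ) ^ p / 2 ≤
        ∑ x ∈ box d M, (Cx d m x : ℝ) / μ ^ m := by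
      intro m hm
      rw [Finset.mem_Ico] at hm
      obtain ⟨g1, g2⟩ := hN1 m (hnN.trans hm.1)
      have hm0 : (0 : ℝ) < m := by exact_mod_cast (by omega : 0 < m)
      have hnm : (n : ℝ) ≤ m := by exact_mod_cast hm.1
      have hm2 : (m : ℝ) ≤ 2 * n := by exact_mod_cast hm.2.le
      have hmu : 0 < μ ^ m := pow_pos hμ m
      have g3 : (n : ℝ) ^ p ≤ (C d m : ℝ) / μ ^ m :=
        (Real.rpow_le_rpow hn0.le hnm hp0).trans g1
      have g4 : msd d m ≤ (M : ℝ) ^ 2 / 2 := by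
        have g5 : (m : ℝ) ^ q ≤ (2 * (n : ℝ)) ^ q := Real.rpow_le_rpow hm0.le hm2 hq0.le
        have g6 : X ^ 2 ≤ (M : ℝ) ^ 2 := by
          rw [hM']
          exact pow_le_pow_left₀ hXpos.le hJ2.le 2
        linarith
      have hCpos : 0 < C d m := by
        have : (0 : ℝ) < C d m := by
          have g5 : 0 < (C d m : ℝ) / μ ^ m := lt_of_lt_of_le (by positivity) g3
          have := mul_pos g5 hmu
          rwa [div_mul_cancel₀ _ hmu.ne'] at this
        exact_mod_cast this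
      have g5 := cheb d m M hCpos
      have hC0 : (0 : ℝ) < C d m := by exact_mod_cast hCpos
      have g6 : (C d m : ℝ) / 2 ≤ ∑ x ∈ box d M, (Cx d m x : ℝ) := by
        have g7 : (M : ℝ) ^ 2 / 2 ≤ (M : ℝ) ^ 2 - msd d m := by linarith
        have g8 := mul_le_mul_of_nonneg_left g7 hC0.le
        have g9 : (M : ℝ) ^ 2 * ((C d m : ℝ) / 2) ≤
            (M : ℝ) ^ 2 * ∑ x ∈ box d M, (Cx d m x : ℝ) := by linarith
        exact le_of_mul_le_mul_left g9 (by positivity)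
      rw [← Finset.sum_div, le_div_iff₀ hmu]
      rw [le_div_iff₀ hmu] at g3
      linarith
    have h3 := Finset.sum_le_sum one
    rw [Finset.sum_const, Nat.card_Ico, nsmul_eq_mul, Finset.sum_comm] at h3
    have h4 : ∑ x ∈ box d M, ∑ m ∈ Finset.Ico n (2 * n), (Cx d m x : ℝ) / μ ^ m ≤
        ∑ x ∈ box d M, G d μ x := by
      apply Finset.sum_le_sum
      intro x _
      exact (hsum x).sum_le_tsum _ (fun i _ => by positivity)
    have h5 := hbox (J + 1) hJJ
    rw [← hM] at h5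
    have h6 : ((2 * n - n : ℕ) : ℝ) = n := by
      congr 1
      omega
    rw [h6] at h3
    have h7 : ((2 : ℝ) ^ κ) ^ (J + 1) ≤ (2 * X) ^ κ := by
      have e : ((2 : ℝ) ^ κ) ^ (J + 1) = ((2 : ℝ) ^ (J + 1)) ^ κ := by
        rw [← Real.rpow_natCast, ← Real.rpow_mul (by norm_num), ← Real.rpow_natCast,
          ← Real.rpow_mul (by norm_num), mul_comm]
      rw [e]
      apply Real.rpow_le_rpow (by positivity) _ hκ0.le
      rw [pow_succ]
      linarith
    have h8 : (2 * X) ^ κ = (2 * (2 * 2 ^ q) ^ (1 / 2 : ℝ)) ^ κ * (n : ℝ) ^ (q * κ / 2) := by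
      rw [hXn, ← mul_assoc, Real.mul_rpow (by positivity) (by positivity), ← Real.rpow_mul hn0.le]
      congr 2
      ring
    have h9 := mul_le_mul_of_nonneg_left h7 hK.le
    rw [h8] at h9
    have e3 : (n : ℝ) ^ (1 + p) = n * (n : ℝ) ^ p := by
      rw [Real.rpow_add hn0, Real.rpow_one]
    rw [e3, hc]
    linarith
  -- conclusion
  have h1 : 1 + p ≤ q * κ / 2 := by
    by_contra hcon
    push Not at hcon
    obtain ⟨n, h2, h3, h4⟩ := (main.and ((ev_pow (c + 1) hcon).and (eventually_ge_atTop 1))).exists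
    have hn0 : (0 : ℝ) < n := by exact_mod_cast h4
    have h5 : 0 < (n : ℝ) ^ (q * κ / 2) := by positivity
    linarith
  have h2 : γ - 1 - ε ≤ p := by rw [hp]; exact le_max_left _ _
  linarith

/-- **Theorem (Fisher's inequality).** Let `d ≥ 1` and `μ = lim C_n^(1/n) > 0`.  Suppose that the
exponents `γ`, `ν`, `η` exist: `log (μ^(-n) C_n) / log n → γ - 1`, `log ⟨|ω(n)|²⟩ / log n → 2 ν`,
the critical two-point function `G(x) = ∑_n μ^(-n) C_n(x)` is finite for all `x`, and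
`log G(x) / log |x| → -(d - 2 + η)` as `|x| → ∞`.  Then `1 ≤ γ ≤ ν (2 - η)`; in particular `ν > 0` and
`η < 2`. -/
theorem result (d : ℕ) (hd : 1 ≤ d) (μ γ ν η : ℝ) (hμ : 0 < μ)
    (hlim : Tendsto (fun n : ℕ => (C d n : ℝ) ^ (1 / (n : ℝ))) atTop (𝓝 μ))
    (hγ : Tendsto (fun n : ℕ => Real.log ((C d n : ℝ) / μ ^ n) / Real.log n) atTop (𝓝 (γ - 1)))
    (hν : Tendsto (fun n : ℕ => Real.log (msd d n) / Real.log n) atTop (𝓝 (2 * ν)))
    (hsum : ∀ x : Fin d → ℤ, Summable (fun n : ℕ => (Cx d n x : ℝ) / μ ^ n))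
    (hη : Tendsto (fun x : Fin d → ℤ => Real.log (G d μ x) / Real.log (len x)) cofinite
      (𝓝 (-((d : ℝ) - 2 + η)))) :
    1 ≤ γ ∧ 0 < ν ∧ η < 2 ∧ γ ≤ ν * (2 - η) := by
  have h1 : 1 ≤ γ := by
    have h2 : 0 ≤ γ - 1 := by
      apply ge_of_tendsto hγ
      filter_upwards [eventually_ge_atTop 1] with n hn
      have h3 := pow_le_C hμ hlim n hn
      have h4 : 1 ≤ (C d n : ℝ) / μ ^ n := by
        rw [le_div_iff₀ (pow_pos hμ n), one_mul]; exact h3
      exact div_nonneg (Real.log_nonneg h4) (Real.log_natCast_nonneg n)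
    linarith
  have h2 : γ ≤ max (2 * ν) 0 * max (2 - η) 0 / 2 := by
    have h3 : Tendsto (fun ε : ℝ => (max (2 * ν) 0 + ε) * (max (2 - η) 0 + 2 * ε) / 2 + ε)
        (𝓝[>] 0) (𝓝 ((max (2 * ν) 0 + 0) * (max (2 - η) 0 + 2 * 0) / 2 + 0)) := by
      apply Tendsto.mono_left _ nhdsWithin_le_nhds
      have : Continuous (fun ε : ℝ => (max (2 * ν) 0 + ε) * (max (2 - η) 0 + 2 * ε) / 2 + ε) := by
        fun_prop
      exact this.tendsto 0
    have h4 := ge_of_tendsto h3 (b := γ) (by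
      filter_upwards [self_mem_nhdsWithin] with ε hε
      have := core hd hμ hlim hγ hν hsum hη (ε := ε) hε
      linarith)
    simpa using h4
  have hν0 : 0 < ν := by
    by_contra hcon
    push Not at hcon
    rw [max_eq_right (by linarith : 2 * ν ≤ 0)] at h2
    simp only [zero_mul, zero_div] at h2
    linarith
  have hη0 : η < 2 := by
    by_contra hcon
    push Not at hcon
    rw [max_eq_right (by linarith : 2 - η ≤ 0)] at h2
    simp only [mul_zero, zero_div] at h2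
    linarith
  refine ⟨h1, hν0, hη0, ?_⟩
  rw [max_eq_left (by linarith : 0 ≤ 2 * ν), max_eq_left (by linarith : 0 ≤ 2 - η)] at h2
  linarith

end Pool.Agent.Results.MP_5e6e69_pr.FisherInequality
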